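import Mathlib
import Pool.Agent.helper1.SF.SpecA

/-!
Project SF (MP_d52931_gt), module TRB: the base of the tree.
-/

set_option autoImplicit false

namespace SF

open Pool.Agent.helper72.Sq

/-- `exp a ≤ 2 cosh a` -/
lemma TRB_exp_le (a : ℝ) : Real.exp a ≤ 2 * Real.cosh a := by
  rw [Real.cosh_eq]
  have := Real.exp_pos (-a)
  linarith

lemma TRB_len (L : ℝ) (hL : 0 ≤ L) : len (2 * Real.cosh (L / 2)) = L := by
  unfold len
  rw [mul_div_cancel_left₀ _ (two_ne_zero), Real.arcosh_cosh (by linarith)]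
  ring

lemma TRB_two_lt (a : ℝ) (ha : 0 < a) : 2 < 2 * Real.cosh a := by
  have : 1 < Real.cosh a := Real.one_lt_cosh.2 ha.ne'
  linarith

/-- the length of the third entry -/
lemma TRB_gap (Q : Tri) (hQ : Gr Q) (L M t τ : ℝ) (hL : 0 ≤ L) (hM : 0 ≤ M) (hLM : 6 ≤ L + M)
    (h1 : Q.1 = 2 * Real.cosh (L / 2)) (h2 : Q.2.1 = 2 * Real.cosh (M / 2))
    (h3 : Q.2.2 = Q.1 * Q.2.1 - t) (ht : t ≤ 2 * Real.exp τ) :
    len Q.1 = L ∧ len Q.2.1 = M ∧ len Q.2.2 ≤ L + M ∧
      L + M - len Q.2.2 ≤ 16 * Real.exp (τ - (L + M) / 2) := by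
  have e1 : len Q.1 = L := by rw [h1]; exact TRB_len L hL
  have e2 : len Q.2.1 = M := by rw [h2]; exact TRB_len M hM
  have hle := hQ.len_z_le
  rw [e1, e2] at hle
  refine ⟨e1, e2, hle, ?_⟩
  set A : ℝ := (L + M) / 2 with hA
  set B : ℝ := len Q.2.2 / 2 with hB
  have hB0 : 0 ≤ B := by
    have := len_nonneg hQ.z2.le
    linarith
  have hBA : B ≤ A := by linarith
  have hcB : Real.cosh B = Q.2.2 / 2 := cosh_half_len hQ.z2.le
  have hconv := cosh_sub_ge hB0 hBA
  have hprod : Q.1 * Q.2.1 = 2 * Real.cosh A + 2 * Real.cosh (L / 2 - M / 2) := by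
    rw [h1, h2, hA, add_div, Real.cosh_add, Real.cosh_sub]
    ring
  have hpos : 0 < Real.cosh (L / 2 - M / 2) := Real.cosh_pos _
  have hE : Real.exp A ≤ Q.1 * Q.2.1 := by
    rw [hprod]
    have := TRB_exp_le A
    linarith
  have hcB2 : Real.exp A / 4 ≤ Real.cosh B := by
    rw [hcB]
    have := hQ.zbig
    linarith
  have h8 : 8 ≤ Real.exp A := by
    have h31 : Real.exp 3 ≤ Real.exp A := Real.exp_le_exp.2 (by linarith)
    have h32 : Real.exp 3 = Real.exp 1 ^ 3 := by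
      rw [← Real.exp_nat_mul]; norm_num
    have h33 : (2 : ℝ) ≤ Real.exp 1 := by
      have := Real.add_one_le_exp (1 : ℝ)
      linarith
    have h34 : (2 : ℝ) ^ 3 ≤ Real.exp 1 ^ 3 := pow_le_pow_left₀ (by norm_num) h33 3
    rw [← h32] at h34
    linarith
  have hsB : Real.exp A / 8 ≤ Real.sinh B := by
    have h4 : Real.cosh B - Real.sinh B = Real.exp (-B) := Real.cosh_sub_sinh B
    have h5 : Real.exp (-B) ≤ 1 := by
      rw [Real.exp_le_one_iff]
      linarith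
    linarith
  have hup : Real.cosh A - Real.cosh B ≤ Real.exp τ := by
    rw [hcB, h3, hprod]
    linarith
  have h6 : (A - B) * (Real.exp A / 8) ≤ Real.exp τ := by
    refine le_trans ?_ (hconv.trans hup)
    apply mul_le_mul_of_nonneg_left hsB
    linarith
  have h7 : A - B ≤ 8 * Real.exp (τ - A) := by
    rw [Real.exp_sub]
    have hEA : 0 < Real.exp A := Real.exp_pos _
    rw [mul_div_assoc', le_div_iff₀ hEA]
    linarith
  linarith

/-- the properties of a node with given lengths `a Λ`, `b Λ` -/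
lemma TRB_node (Q : Tri) (hQ : Gr Q) (Λ a b t θ : ℝ) (n : ℕ) (hn : n ≤ 1) (hΛ : 100 ≤ Λ)
    (ha : a = 1 ∨ 3 / 2 ≤ a) (hb : b = 1 ∨ 3 / 2 ≤ b) (hab : ¬(a = 1 ∧ b = 1))
    (ha1 : 1 ≤ a) (hb1 : 1 ≤ b)
    (h1 : Q.1 = 2 * Real.cosh (a * Λ / 2)) (h2 : Q.2.1 = 2 * Real.cosh (b * Λ / 2))
    (h3 : Q.2.2 = Q.1 * Q.2.1 - t) (ht : t ≤ 2 * Real.exp (θ * Λ))
    (hθ : θ + 3 / 20 ≤ 2 / 5 * (a + b)) (hS : 5 / 2 + 1 / 5 * n ≤ a + b)
    (hm : 3 / 2 + 9 / 10 * n ≤ 12 / 5 ∨ 3 / 2 + 9 / 10 * n ≤ 12 / 5)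
    (hNR : NR ((1 / 4) ^ (n + 1)) a b) : GQ Λ n Q := by
  have hΛ0 : (0 : ℝ) < Λ := by linarith
  have haL : 100 ≤ a * Λ := by nlinarith
  have hbL : 100 ≤ b * Λ := by nlinarith
  obtain ⟨e1, e2, e3, e4⟩ := TRB_gap Q hQ (a * Λ) (b * Λ) t (θ * Λ) (by linarith) (by linarith)
    (by linarith) h1 h2 h3 ht
  have ea : len Q.1 / Λ = a := by rw [e1]; field_simp
  have eb : len Q.2.1 / Λ = b := by rw [e2]; field_simp
  set m : ℝ := len Q.2.2 / Λ with hmdef
  have hmΛ : Λ * m = len Q.2.2 := by rw [hmdef]; field_simp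
  have hm1 : m ≤ a + b := by
    rw [hmdef, div_le_iff₀ hΛ0]
    linarith
  -- the gap
  have h16 : (16 : ℝ) ≤ Real.exp (3 / 20 * Λ) := by
    have := Real.add_one_le_exp (3 / 20 * Λ)
    linarith
  have hgap0 : Λ * (a + b - m) ≤ Real.exp (-((a + b) * Λ) / 10) := by
    have h5 : Λ * (a + b - m) = a * Λ + b * Λ - len Q.2.2 := by
      rw [mul_sub, hmΛ]; ring
    rw [h5]
    refine e4.trans ?_
    calc 16 * Real.exp (θ * Λ - (a * Λ + b * Λ) / 2)
        ≤ Real.exp (3 / 20 * Λ) * Real.exp (θ * Λ - (a * Λ + b * Λ) / 2) := by gcongr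
      _ = Real.exp (3 / 20 * Λ + (θ * Λ - (a * Λ + b * Λ) / 2)) := (Real.exp_add _ _).symm
      _ ≤ Real.exp (-((a + b) * Λ) / 10) := by
          rw [Real.exp_le_exp]
          nlinarith
  have hgap : a + b - m ≤ Real.exp (-((a + b) * Λ) / 10) / Λ := by
    rw [le_div_iff₀ hΛ0]
    linarith
  have hexp1 : Real.exp (-((a + b) * Λ) / 10) ≤ 1 / 10 := by
    have h6 : Real.exp (-((a + b) * Λ) / 10) = 1 / Real.exp ((a + b) * Λ / 10) := by
      rw [one_div, ← Real.exp_neg]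
      congr 1
      ring
    rw [h6]
    apply one_div_le_one_div_of_le (by norm_num)
    have := Real.add_one_le_exp ((a + b) * Λ / 10)
    nlinarith
  have hgap1 : a + b - m ≤ 1 / 1000 := by
    refine hgap.trans ?_
    rw [div_le_iff₀ hΛ0]
    linarith
  have hn0 : (0 : ℝ) ≤ n := Nat.cast_nonneg n
  have hn1 : (n : ℝ) ≤ 1 := by exact_mod_cast hn
  refine ⟨hQ, ?_, ?_, ?_, ?_, ?_⟩
  · rw [ea, eb]
    exact ⟨ha, hb, hab, by linarith, hm1⟩
  · linarith
  · rw [ea, eb]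
    calc a + b - m ≤ Real.exp (-((a + b) * Λ) / 10) / Λ := hgap
      _ ≤ Real.exp (-((a + b) * Λ) / 10) := div_le_self (Real.exp_pos _).le (by linarith)
      _ ≤ Real.exp (-(Λ * m) / 10) := by
          rw [Real.exp_le_exp]
          nlinarith
  · rw [ea, eb]
    have h9 : (1 / 16 : ℝ) ≤ (1 / 4) ^ (n + 1) := by
      rcases Nat.le_one_iff_eq_zero_or_eq_one.1 hn with rfl | rfl <;> norm_num
    linarith
  · rw [ea, eb]
    exact hNR

/-- distance of a half integer to the integers -/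
lemma TRB_half (p : ℤ) (c : ℤ) (δ : ℝ) (hδ : δ ≤ 1 / 2) : δ ≤ |(p : ℝ) - (c + 1 / 2)| := by
  refine hδ.trans ?_
  rcases le_or_gt p c with h | h
  · have h1 : (p : ℝ) ≤ c := by exact_mod_cast h
    rw [abs_of_nonpos (by linarith)]
    linarith
  · have h1 : (c : ℝ) + 1 ≤ p := by exact_mod_cast h
    rw [abs_of_nonneg (by linarith)]
    linarith

theorem TRB : TRB_stmt := by
  refine ⟨100, by norm_num, ?_⟩
  intro Λ hΛ
  have hΛ0 : (0 : ℝ) < Λ := by linarith
  set x : ℝ := 2 * Real.cosh (Λ / 2) with hx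
  set y : ℝ := 2 * Real.cosh (3 * Λ / 4) with hy
  set z : ℝ := 2 * Real.cosh (17 * Λ / 20) with hz
  have hP : PP Λ = (x, y, z) := rfl
  have x2 : 2 < x := TRB_two_lt _ (by linarith)
  have y2 : 2 < y := TRB_two_lt _ (by linarith)
  have z2 : 2 < z := TRB_two_lt _ (by linarith)
  have xl : Real.exp (Λ / 2) ≤ x := TRB_exp_le _
  have yl : Real.exp (3 * Λ / 4) ≤ y := TRB_exp_le _
  have zl : Real.exp (17 * Λ / 20) ≤ z := TRB_exp_le _
  have xu : x ≤ 2 * Real.exp (Λ / 2) := by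
    have := cosh_le_exp_self (a := Λ / 2) (by linarith)
    linarith
  have yu : y ≤ 2 * Real.exp (3 * Λ / 4) := by
    have := cosh_le_exp_self (a := 3 * Λ / 4) (by linarith)
    linarith
  have zu : z ≤ 2 * Real.exp (17 * Λ / 20) := by
    have := cosh_le_exp_self (a := 17 * Λ / 20) (by linarith)
    linarith
  have h16 : (16 : ℝ) ≤ Real.exp (3 / 20 * Λ) := by
    have := Real.add_one_le_exp (3 / 20 * Λ)
    linarith
  -- products
  have hxy : 16 * Real.exp (17 * Λ / 20) ≤ x * y := by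
    calc 16 * Real.exp (17 * Λ / 20) ≤ Real.exp (3 / 20 * Λ) * Real.exp (17 * Λ / 20) := by gcongr
      _ = Real.exp (3 / 20 * Λ + 17 * Λ / 20) := (Real.exp_add _ _).symm
      _ ≤ Real.exp (Λ / 2 + 3 * Λ / 4) := by
          rw [Real.exp_le_exp]; linarith
      _ = Real.exp (Λ / 2) * Real.exp (3 * Λ / 4) := Real.exp_add _ _
      _ ≤ x * y := by gcongr
  have hxz : 16 * Real.exp (3 * Λ / 4) ≤ x * z := by
    calc 16 * Real.exp (3 * Λ / 4) ≤ Real.exp (3 / 20 * Λ) * Real.exp (3 * Λ / 4) := by gcongr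
      _ = Real.exp (3 / 20 * Λ + 3 * Λ / 4) := (Real.exp_add _ _).symm
      _ ≤ Real.exp (Λ / 2 + 17 * Λ / 20) := by
          rw [Real.exp_le_exp]; linarith
      _ = Real.exp (Λ / 2) * Real.exp (17 * Λ / 20) := Real.exp_add _ _
      _ ≤ x * z := by gcongr
  have hyz : 16 * Real.exp (Λ / 2) ≤ z * y := by
    calc 16 * Real.exp (Λ / 2) ≤ Real.exp (3 / 20 * Λ) * Real.exp (Λ / 2) := by gcongr
      _ = Real.exp (3 / 20 * Λ + Λ / 2) := (Real.exp_add _ _).symm
      _ ≤ Real.exp (17 * Λ / 20 + 3 * Λ / 4) := by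
          rw [Real.exp_le_exp]; linarith
      _ = Real.exp (17 * Λ / 20) * Real.exp (3 * Λ / 4) := Real.exp_add _ _
      _ ≤ z * y := by gcongr
  have xy : x ≤ y := by
    rw [hx, hy]
    have : Real.cosh (Λ / 2) ≤ Real.cosh (3 * Λ / 4) := by
      rw [Real.cosh_le_cosh, abs_of_pos (by linarith), abs_of_pos (by linarith)]
      linarith
    linarith
  have yz : y ≤ z := by
    rw [hy, hz]
    have : Real.cosh (3 * Λ / 4) ≤ Real.cosh (17 * Λ / 20) := by
      rw [Real.cosh_le_cosh, abs_of_pos (by linarith), abs_of_pos (by linarith)]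
      linarith
    linarith
  have hkap : kap (PP Λ) = x * y * z - x ^ 2 - y ^ 2 - z ^ 2 := rfl
  have hkpos : 0 < kap (PP Λ) := by
    rw [hkap]
    have h1 : 8 * z ≤ x * y := by linarith
    have h2 : 8 * z * z ≤ x * y * z := by
      apply mul_le_mul_of_nonneg_right h1
      linarith
    nlinarith
  have hAdm : Adm (PP Λ) := ⟨x2, y2, hkpos⟩
  refine ⟨hAdm, ?_, ?_, ?_, ?_, ?_, ?_, ?_⟩
  · rw [hkap]
    have h1 : x * y * z ≤ (2 * Real.exp (Λ / 2)) * (2 * Real.exp (3 * Λ / 4)) *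
        (2 * Real.exp (17 * Λ / 20)) := by gcongr
    have h2 : (2 * Real.exp (Λ / 2)) * (2 * Real.exp (3 * Λ / 4)) *
        (2 * Real.exp (17 * Λ / 20)) = 8 * Real.exp (21 * Λ / 10) := by
      have : (21 * Λ / 10) = Λ / 2 + 3 * Λ / 4 + 17 * Λ / 20 := by ring
      rw [this, Real.exp_add, Real.exp_add]
      ring
    have h3 : 0 ≤ x ^ 2 := by positivity
    have h4 : 0 ≤ y ^ 2 := by positivity
    have h5 : 0 ≤ z ^ 2 := by positivity
    linarith
  · exact TRB_len Λ hΛ0.le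
  · have := TRB_len (3 / 2 * Λ) (by linarith)
    rw [show 3 / 2 * Λ / 2 = 3 * Λ / 4 by ring] at this
    exact this
  · have := TRB_len (17 / 10 * Λ) (by linarith)
    rw [show 17 / 10 * Λ / 2 = 17 * Λ / 20 by ring] at this
    exact this
  · -- Lm
    have hGr : Gr (Lm (PP Λ)) := by
      refine ⟨x2, z2, by rw [kap_Lm]; exact hkpos, ?_⟩
      change x * z ≤ 2 * (x * z - y)
      linarith
    refine TRB_node _ hGr Λ 1 (17 / 10) y (3 / 4) 1 le_rfl hΛ (Or.inl rfl)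
      (Or.inr (by norm_num)) (by norm_num) le_rfl (by norm_num) ?_ ?_ rfl ?_ (by norm_num)
      (by norm_num) (Or.inl (by norm_num)) ?_
    · change x = _
      rw [one_mul]
    · change z = _
      rw [hz]
      congr 2
      ring
    · rw [show (3 / 4 : ℝ) * Λ = 3 * Λ / 4 by ring]
      exact yu
    · intro p1 p2
      left
      have := TRB_half p1 8 ((1 / 4) ^ (1 + 1)) (by norm_num)
      rw [show (5 : ℝ) * (17 / 10) = ((8 : ℤ) : ℝ) + 1 / 2 by norm_num]
      exact this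
  · -- Rm
    have hGr : Gr (Rm (PP Λ)) := by
      refine ⟨z2, y2, by rw [kap_Rm]; exact hkpos, ?_⟩
      change z * y ≤ 2 * (z * y - x)
      linarith
    refine TRB_node _ hGr Λ (17 / 10) (3 / 2) x (1 / 2) 1 le_rfl hΛ (Or.inr (by norm_num))
      (Or.inr le_rfl) (by norm_num) (by norm_num) (by norm_num) ?_ ?_ rfl ?_ (by norm_num)
      (by norm_num) (Or.inl (by norm_num)) ?_
    · change z = _
      rw [hz]
      congr 2
      ring
    · change y = _
      rw [hy]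
      congr 2
      ring
    · rw [show (1 / 2 : ℝ) * Λ = Λ / 2 by ring]
      exact xu
    · intro p1 p2
      left
      have := TRB_half p1 7 ((1 / 4) ^ (1 + 1)) (by norm_num)
      rw [show (5 : ℝ) * (3 / 2) = ((7 : ℤ) : ℝ) + 1 / 2 by norm_num]
      exact this
  · -- Tw
    have hGr : Gr (Tw (PP Λ)) := by
      refine ⟨y2, x2, ?_, ?_⟩
      · have : kap (Tw (PP Λ)) = kap (PP Λ) := by
          simp only [kap, Tw]; ring
        rw [this]; exact hkpos
      · change y * x ≤ 2 * (x * y - z)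
        linarith
    refine TRB_node _ hGr Λ (3 / 2) 1 z (17 / 20) 0 (by norm_num) hΛ (Or.inr le_rfl)
      (Or.inl rfl) (by norm_num) (by norm_num) le_rfl ?_ ?_ ?_ ?_ (by norm_num)
      (by norm_num) (Or.inl (by norm_num)) ?_
    · change y = _
      rw [hy]
      congr 2
      ring
    · change x = _
      rw [one_mul]
    · change x * y - z = y * x - z
      ring
    · rw [show (17 / 20 : ℝ) * Λ = 17 * Λ / 20 by ring]
      exact zu
    · intro p1 p2
      right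
      have := TRB_half p2 7 ((1 / 4) ^ (0 + 1)) (by norm_num)
      rw [show (5 : ℝ) * (3 / 2) = ((7 : ℤ) : ℝ) + 1 / 2 by norm_num]
      exact this

end SF
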